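import Pool.Agent.Helper79.GS.St1

set_option autoImplicit false

namespace Pool.Agent.Helper27.GS

open Pool.Agent.Helper19.SK Pool.Agent.Helper79.GS

theorem hSTB (hLVL : StLVL) (hXLC : StXLC) (hCOL : StCOL) : StSTB := by
  intro P _ A hSc EX V c v r hav hXv hvV hrV hrv hs
  have hmg : mg A c r = mg A c v := by unfold mg; rw [hs]
  have har : ¬ ahead A c r := by
    unfold ahead at hav ⊢
    rw [hs]
    exact hav
  obtain ⟨k, hk⟩ : ∃ k, k = mg A c v / 4 := ⟨_, rfl⟩
  have hXr : ∀ W : Set P, XIN A EX W c r ↔ (EX c r ∨ Ess (Gr A EX W c (Xk A EX W c k) r) r) := by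
    intro W
    unfold XIN
    rw [hmg, ← hk]
    exact Iff.rfl
  have hXv' : EX c v ∨ Ess (Gr A EX V c (Xk A EX V c k) v) v := by
    unfold XIN at hXv
    rw [← hk] at hXv
    exact hXv
  have key : ∀ y x, A.s y = A.s r → rv A c y x →
      x ≠ v ∧ (¬ ahead A c x → (Xk A EX (insert v V) c k x ↔ Xk A EX V c k x)) := by
    intro y x hy hyx
    obtain ⟨h1, h2, h3, h4, h5, h6, h7, h8⟩ := hLVL P A hSc c y x hyx
    have hay : ¬ ahead A c y := by
      unfold ahead at har ⊢
      rw [hy]
      exact har
    have hmy : mg A c y = mg A c v := by unfold mg; rw [hy, hs]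
    refine ⟨?_, ?_⟩
    · rintro rfl
      exact h5 (hy.trans hs)
    · intro hax
      have h9 : mg A c x / 4 + 1 = k := by
        rw [hk, ← hmy]
        exact h1 hay hax
      have h10 := hXLC P A hSc EX V (insert v V) c x hax ?_
      · unfold XIN at h10
        rw [h9] at h10
        exact h10.symm
      · intro z hz hle
        have hzv : z ≠ v := by
          rintro rfl
          rcases h8 with ⟨hc, hsx⟩ | ⟨hc, hsx⟩
          · subst hc
            simp at hle
            omega
          · subst hc
            simp at hle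
            omega
        simp [hzv]
  have hE' : Gr A EX (insert v V) c (Xk A EX (insert v V) c k) r = del (Gr A EX V c (Xk A EX V c k) r) v := by
    funext y x
    apply propext
    unfold del Gr
    constructor
    · rintro ⟨h1, h2, h3, h4, h5, h6⟩
      obtain ⟨k1, k2⟩ := key y x h2 h3
      refine ⟨?_, ?_, h2, h3, fun h => h4 (Or.inr h), h5, fun h => (k2 h).1 (h6 h)⟩
      · rcases h1 with h1 | h1
        · rw [h1]; exact hrv
        · rintro rfl
          exact h1.1 (Or.inl rfl)
      · rcases h1 with h1 | h1
        · exact Or.inl h1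
        · exact Or.inr ⟨fun h => h1.1 (Or.inr h), h1.2⟩
    · rintro ⟨h0, h1, h2, h3, h4, h5, h6⟩
      obtain ⟨k1, k2⟩ := key y x h2 h3
      refine ⟨?_, h2, h3, ?_, h5, fun h => (k2 h).2 (h6 h)⟩
      · rcases h1 with h1 | h1
        · exact Or.inl h1
        · refine Or.inr ⟨?_, h1.2⟩
          rintro (h | h)
          · exact h0 h
          · exact h1.1 h
      · rintro (h | h)
        · exact k1 h
        · exact h4 h
  rw [hXr, hXr, hE']
  by_cases hr : EX c r
  · exact iff_of_true (Or.inl hr) (Or.inl hr)
  by_cases hv : EX c v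
  · have hdel : del (Gr A EX V c (Xk A EX V c k) r) v = Gr A EX V c (Xk A EX V c k) r := by
      funext y x
      apply propext
      unfold del
      constructor
      · exact fun h => h.2
      · intro h
        refine ⟨?_, h⟩
        rintro rfl
        rcases h.1 with h1 | h1
        · exact hrv h1.symm
        · exact h1.2 hv
    rw [hdel]
  · have hG : Gr A EX V c (Xk A EX V c k) v = Gr A EX V c (Xk A EX V c k) r := by
      funext y x
      apply propext
      unfold Gr
      rw [hs]
      have : (y = v ∨ (y ∉ V ∧ ¬ EX c y)) ↔ (y = r ∨ (y ∉ V ∧ ¬ EX c y)) := by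
        constructor
        · rintro (rfl | h)
          · exact Or.inr ⟨hvV, hv⟩
          · exact Or.inr h
        · rintro (rfl | h)
          · exact Or.inr ⟨hrV, hr⟩
          · exact Or.inr h
      rw [this]
    have hEss : Ess (Gr A EX V c (Xk A EX V c k) r) v := by
      rcases hXv' with h | h
      · exact absurd h hv
      · rw [hG] at h
        exact h
    have h := hCOL P (Gr A EX V c (Xk A EX V c k) r) v r hrv.symm hEss
    rw [h]

end Pool.Agent.Helper27.GS
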